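import Mathlib

/-!
# Compatible finite-index subgroups
-/

set_option autoImplicit false

namespace Pool.Agent.Q104.VA

universe u w

/-- A finite-index subgroup embeds in a free abelian group of finite rank. -/
def VZ (P : Type u) [Group P] : Prop :=
  ∃ (A : Subgroup P) (_ : A.FiniteIndex) (K : Type) (_ : Fintype K)
    (φ : A →* Multiplicative (K → ℤ)), Function.Injective φ

/-- A group is virtually cyclic if it has a cyclic subgroup of finite index. -/
def VirtuallyCyclic (G : Type u) [Group G] : Prop := ∃ g : G, (Subgroup.zpowers g).FiniteIndex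

/-- A group is virtually abelian if it has an abelian subgroup of finite index. -/
def VirtuallyAbelian (G : Type u) [Group G] : Prop :=
  ∃ A : Subgroup G, A.FiniteIndex ∧ ∀ a ∈ A, ∀ b ∈ A, a * b = b * a

/-- A finitely generated virtually abelian group has a finite-index subgroup which embeds in a free
abelian group. -/
theorem vz_of_fg {P : Type u} [Group P] [Group.FG P] (h : VirtuallyAbelian P) : VZ P := by
  obtain ⟨H, hH, hcomm⟩ := h
  have := hH
  have hfg : Group.FG H := H.fg_of_index_ne_zero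
  let _ : CommGroup H :=
    { (inferInstance : Group H) with
      mul_comm := fun a b => Subtype.ext (hcomm a a.2 b b.2) }
  obtain ⟨ι, κ, _, _, p, hp, e, ⟨Φ⟩⟩ := CommGroup.equiv_free_prod_prod_multiplicative_zmod H
  have : ∀ i, NeZero (p i ^ e i) := fun i => ⟨pow_ne_zero _ (hp i).ne_zero⟩
  have : ∀ i, Finite (Multiplicative (ZMod (p i ^ e i))) := fun i =>
    inferInstanceAs (Finite (ZMod (p i ^ e i)))
  let π : H →* ((i : ι) → Multiplicative (ZMod (p i ^ e i))) :=
    (MonoidHom.snd _ _).comp Φ.toMonoidHom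
  have hfin : (π.ker).FiniteIndex := Subgroup.finiteIndex_ker π
  let A : Subgroup P := π.ker.map H.subtype
  have hA : A.FiniteIndex := by
    constructor
    rw [Subgroup.index_map_subtype]
    exact mul_ne_zero hfin.index_ne_zero hH.index_ne_zero
  have hAH : ∀ a ∈ A, ∃ h : a ∈ H, π ⟨a, h⟩ = 1 := by
    rintro a ⟨b, hb, rfl⟩
    exact ⟨b.2, hb⟩
  let θ : A →* H :=
    { toFun := fun a => ⟨a.1, (hAH a a.2).1⟩
      map_one' := rfl
      map_mul' := fun _ _ => rfl }
  let ρ : (κ → Multiplicative ℤ) →* Multiplicative (κ → ℤ) :=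
    { toFun := fun f => Multiplicative.ofAdd fun k => (f k).toAdd
      map_one' := rfl
      map_mul' := fun _ _ => rfl }
  refine ⟨A, hA, κ, inferInstance, ρ.comp ((MonoidHom.fst _ _).comp (Φ.toMonoidHom.comp θ)), ?_⟩
  rw [injective_iff_map_eq_one]
  intro a ha
  have h1 : (Φ (θ a)).1 = 1 := by
    funext k
    exact congrFun ha k
  have h2 : (Φ (θ a)).2 = 1 := (hAH a a.2).2
  have h3 : Φ (θ a) = 1 := Prod.ext h1 h2
  have h4 : θ a = 1 := by
    apply Φ.injective
    rw [h3, map_one]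
  exact Subtype.ext (congrArg (fun z : H => (z : P)) h4)

theorem compat1 {P : Type u} {R : Type w} [Group P] [Group R] (A₂ : Subgroup P) [A₂.FiniteIndex]
    {K : Type} [Fintype K] (φ : A₂ →* Multiplicative (K → ℤ)) (hφ : Function.Injective φ)
    (i : R →* P) (hi : Function.Injective i) (hR : VirtuallyCyclic R) :
    ∃ t : R, (∀ n : ℤ, n ≠ 0 → t ^ n = 1 → t = 1) ∧ ∀ d : ℕ, d ≠ 0 → ∃ A : Subgroup P,
      A.Normal ∧ A.FiniteIndex ∧ A ≤ A₂ ∧ A.comap i = Subgroup.zpowers (t ^ d) := by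
  classical
  set A₀ := A₂.normalCore with hA₀
  have hA₀2 : A₀ ≤ A₂ := Subgroup.normalCore_le A₂
  set R₀ := A₀.comap i with hR₀
  have hmem : ∀ (r : R₀) (p : P), p * i r * p⁻¹ ∈ A₂ := fun r p =>
    hA₀2 ((inferInstance : A₀.Normal).conj_mem _ r.2 p)
  let Λ : P → K → R₀ →* Multiplicative ℤ := fun p k =>
    { toFun := fun r => Multiplicative.ofAdd ((φ ⟨_, hmem r p⟩).toAdd k)
      map_one' := by
        have : (⟨_, hmem 1 p⟩ : A₂) = 1 := by ext; simp
        rw [this, map_one]
        rfl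
      map_mul' := by
        intro r s
        have : (⟨_, hmem (r * s) p⟩ : A₂) = ⟨_, hmem r p⟩ * ⟨_, hmem s p⟩ := by
          ext
          simp
        rw [this, map_mul]
        rfl }
  have hΛ : ∀ r : R₀, (∀ k, Λ 1 k r = 1) → r = 1 := by
    intro r hr
    have h1 : φ ⟨_, hmem r 1⟩ = 1 := by
      funext k
      exact hr k
    rw [← map_one φ] at h1
    have h2 := congrArg Subtype.val (hφ h1)
    simp only [one_mul, inv_one, mul_one, Subgroup.coe_one] at h2
    ext
    exact hi (by rw [h2, Subgroup.coe_one, map_one])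
  have hpow : ∀ (x : Multiplicative ℤ) (n : ℤ), n ≠ 0 → x ^ n = 1 → x = 1 := by
    intro x n hn hx
    have h1 : n * x.toAdd = 0 := by
      have := congrArg Multiplicative.toAdd hx
      simpa using this
    have h2 : x.toAdd = 0 := (mul_eq_zero.mp h1).resolve_left hn
    exact h2
  have htf : ∀ (r : R₀) (n : ℤ), n ≠ 0 → r ^ n = 1 → r = 1 := by
    intro r n hn hr
    apply hΛ
    intro k
    apply hpow _ n hn
    rw [← map_zpow, hr, map_one]
  -- `R₀` is cyclic
  have hcyc : ∃ t : R₀, ∀ r : R₀, r ∈ Subgroup.zpowers t := by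
    obtain ⟨t₀, ht₀⟩ := hR
    have hex : ∀ r : R₀, ∃ n : ℤ, n ≠ 0 ∧ ((r ^ n : R₀) : R) ∈ Subgroup.zpowers t₀ := by
      intro r
      obtain ⟨n, hn0, -, hn⟩ := Subgroup.exists_pow_mem_of_index_ne_zero
        ht₀.index_ne_zero (r : R)
      exact ⟨n, by exact_mod_cast hn0.ne', by simpa using hn⟩
    by_cases hc : ∃ c : R₀, (c : R) ∈ Subgroup.zpowers t₀ ∧ c ≠ 1
    · obtain ⟨c, hc1, hc2⟩ := hc
      obtain ⟨m₀, hm₀⟩ := Subgroup.mem_zpowers_iff.mp hc1
      have : ∃ k, Λ 1 k c ≠ 1 := by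
        by_contra hcon
        push Not at hcon
        exact hc2 (hΛ c hcon)
      obtain ⟨k, hk⟩ := this
      have hinj : Function.Injective (Λ 1 k) := by
        rw [injective_iff_map_eq_one]
        intro r hr
        obtain ⟨n, hn0, hn⟩ := hex r
        obtain ⟨m, hm⟩ := Subgroup.mem_zpowers_iff.mp hn
        have h1 : (r ^ n) ^ m₀ = c ^ m := by
          apply Subtype.ext
          show ((r ^ n : R₀) : R) ^ m₀ = (c : R) ^ m
          rw [← hm, ← hm₀, ← zpow_mul, ← zpow_mul, mul_comm]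
        have h2 := congrArg (Λ 1 k) h1
        rw [map_zpow, map_zpow, map_zpow, hr, one_zpow, one_zpow, eq_comm] at h2
        have h3 : m = 0 := by
          by_contra h4
          exact hk (hpow _ m h4 h2)
        rw [h3, zpow_zero] at hm
        exact htf r n hn0 (Subtype.ext hm.symm)
      have : IsCyclic R₀ := isCyclic_of_injective (Λ 1 k) hinj
      exact IsCyclic.exists_generator
    · push Not at hc
      refine ⟨1, fun r => ?_⟩
      obtain ⟨n, hn0, hn⟩ := hex r
      have h1 := hc _ hn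
      rw [htf r n hn0 h1]
      exact one_mem _
  obtain ⟨t, ht⟩ := hcyc
  refine ⟨t, ?_, ?_⟩
  · intro n hn h
    have h1 := htf t n hn (Subtype.ext h)
    rw [h1]
    rfl
  intro d hd
  by_cases ht1 : t = 1
  · refine ⟨A₀, inferInstance, inferInstance, hA₀2, ?_⟩
    rw [ht1]
    ext r
    simp only [Subgroup.coe_one, one_pow, Subgroup.zpowers_one_eq_bot, Subgroup.mem_bot]
    constructor
    · intro hr
      have h1 := ht ⟨r, hr⟩
      rw [ht1, Subgroup.zpowers_one_eq_bot, Subgroup.mem_bot] at h1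
      exact congrArg Subtype.val h1
    · rintro rfl
      exact one_mem _
  -- the ideal of the coordinates of the conjugates of `t`
  let I : Ideal ℤ := Ideal.span (Set.range fun pk : P × K => (Λ pk.1 pk.2 t).toAdd)
  set g : ℤ := Submodule.IsPrincipal.generator I with hg
  have hgI : g ∈ I := Submodule.IsPrincipal.generator_mem I
  have hgdvd : ∀ p k, g ∣ (Λ p k t).toAdd := by
    intro p k
    exact (Submodule.IsPrincipal.mem_iff_generator_dvd I).mp
      (Ideal.subset_span ⟨(p, k), rfl⟩)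
  have hg0 : g ≠ 0 := by
    intro h0
    apply ht1
    apply hΛ
    intro k
    have := hgdvd 1 k
    rw [h0, zero_dvd_iff] at this
    exact this
  set N : ℕ := g.natAbs * d with hN
  have hN0 : N ≠ 0 := mul_ne_zero (Int.natAbs_ne_zero.mpr hg0) hd
  have : NeZero N := ⟨hN0⟩
  let π : A₂ →* Multiplicative (K → ZMod N) :=
    { toFun := fun a => Multiplicative.ofAdd fun k => (((φ a).toAdd k : ℤ) : ZMod N)
      map_one' := by
        rw [map_one]
        show Multiplicative.ofAdd (fun k : K => (((0 : K → ℤ) k : ℤ) : ZMod N)) = 1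
        simp only [Pi.zero_apply, Int.cast_zero]
        rfl
      map_mul' := by
        intro a b
        rw [map_mul, ← ofAdd_add]
        congr 1
        funext k
        simp }
  have : Finite (Multiplicative (K → ZMod N)) := inferInstanceAs (Finite (K → ZMod N))
  have hπ : ∀ a : A₂, a ∈ π.ker ↔ ∀ k, (N : ℤ) ∣ (φ a).toAdd k := by
    intro a
    rw [MonoidHom.mem_ker]
    constructor
    · intro h k
      have h1 : (((φ a).toAdd k : ℤ) : ZMod N) = 0 := congrFun h k
      exact (ZMod.intCast_zmod_eq_zero_iff_dvd _ _).mp h1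
    · intro h
      funext k
      exact (ZMod.intCast_zmod_eq_zero_iff_dvd _ _).mpr (h k)
  have hker : π.ker.FiniteIndex := Subgroup.finiteIndex_ker π
  let A₃ : Subgroup P := π.ker.map A₂.subtype
  have hA₃ : A₃.FiniteIndex := by
    constructor
    rw [Subgroup.index_map_subtype]
    exact mul_ne_zero hker.index_ne_zero Subgroup.FiniteIndex.index_ne_zero
  have hA₃2 : A₃ ≤ A₂ := Subgroup.map_subtype_le _
  have hA₃m : ∀ (a : P) (ha : a ∈ A₂), a ∈ A₃ ↔ ∀ k, (N : ℤ) ∣ (φ ⟨a, ha⟩).toAdd k := by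
    intro a ha
    rw [← hπ]
    constructor
    · rintro ⟨b, hb, rfl⟩
      exact hb
    · intro h
      exact ⟨⟨a, ha⟩, h, rfl⟩
  have hval : ∀ (m : ℤ) (p : P) (k : K), (φ ⟨_, hmem (t ^ m) p⟩).toAdd k =
      m * (Λ p k t).toAdd := by
    intro m p k
    have h1 : Λ p k (t ^ m) = (Λ p k t) ^ m := map_zpow _ _ _
    have h2 := congrArg Multiplicative.toAdd h1
    rw [toAdd_zpow, smul_eq_mul] at h2
    exact h2
  refine ⟨A₃.normalCore, inferInstance, inferInstance,
    (Subgroup.normalCore_le _).trans hA₃2, ?_⟩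
  ext r
  constructor
  · intro hr
    have hr' : i r ∈ A₃.normalCore := hr
    have hr0 : r ∈ R₀ := Subgroup.normalCore_mono hA₃2 hr'
    obtain ⟨m, hm⟩ := Subgroup.mem_zpowers_iff.mp (ht ⟨r, hr0⟩)
    have hrm : r = ((t ^ m : R₀) : R) := by rw [hm]
    have h1 : ∀ p k, (N : ℤ) ∣ m * (Λ p k t).toAdd := by
      intro p k
      have h2 : p * i r * p⁻¹ ∈ A₃ := hr' p
      rw [hrm] at h2
      have h3 := (hA₃m _ (hmem (t ^ m) p)).mp h2 k
      rwa [hval] at h3
    have h2 : ∀ x ∈ I, (N : ℤ) ∣ m * x := by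
      intro x hx
      refine Submodule.span_induction ?_ ?_ ?_ ?_ hx
      · rintro _ ⟨⟨p, k⟩, rfl⟩
        exact h1 p k
      · simp
      · intro a b _ _ ha hb
        rw [mul_add]
        exact dvd_add ha hb
      · intro a b _ hb
        rw [smul_eq_mul, mul_left_comm]
        exact hb.mul_left a
    have h3 := h2 g hgI
    rw [hN, Nat.cast_mul, Int.natCast_natAbs] at h3
    have h4 : (d : ℤ) ∣ m := by
      rw [mul_comm m g] at h3
      have h5 : |g| * (d : ℤ) ∣ |g| * m := by
        rcases abs_choice g with h | h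
        · rw [h] at h3 ⊢
          exact h3
        · rw [h] at h3 ⊢
          rw [neg_mul g m]
          exact (dvd_neg).mpr h3
      exact (mul_dvd_mul_iff_left (abs_ne_zero.mpr hg0)).mp h5
    obtain ⟨m', rfl⟩ := h4
    rw [hrm, Subgroup.coe_zpow, zpow_mul, zpow_natCast]
    exact Subgroup.mem_zpowers_iff.mpr ⟨m', rfl⟩
  · intro hr
    obtain ⟨m', rfl⟩ := Subgroup.mem_zpowers_iff.mp hr
    intro p
    have h1 : ((t : R) ^ d) ^ m' = ((t ^ ((d : ℤ) * m') : R₀) : R) := by
      rw [Subgroup.coe_zpow, zpow_mul, zpow_natCast]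
    show p * i (((t : R) ^ d) ^ m') * p⁻¹ ∈ A₃
    rw [h1]
    rw [hA₃m _ (hmem (t ^ ((d : ℤ) * m')) p)]
    intro k
    rw [hval]
    obtain ⟨z, hz⟩ := hgdvd p k
    rw [hz, hN, Nat.cast_mul, Int.natCast_natAbs]
    have h2 : |g| ∣ g := (abs_dvd_self g)
    obtain ⟨y, hy⟩ := h2
    refine ⟨m' * y * z, ?_⟩
    conv_lhs => rw [hy]
    ring

theorem compat2 {P Q : Type u} {R : Type w} [Group P] [Group Q] [Group R] (A₂ : Subgroup P)
    [A₂.FiniteIndex] (B₂ : Subgroup Q) [B₂.FiniteIndex] {K L : Type} [Fintype K] [Fintype L]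
    (φ : A₂ →* Multiplicative (K → ℤ)) (hφ : Function.Injective φ)
    (ψ : B₂ →* Multiplicative (L → ℤ)) (hψ : Function.Injective ψ)
    (i : R →* P) (hi : Function.Injective i) (j : R →* Q) (hj : Function.Injective j)
    (hR : VirtuallyCyclic R) :
    ∃ (A : Subgroup P) (B : Subgroup Q) (t : R), A.Normal ∧ A.FiniteIndex ∧ A ≤ A₂ ∧ B.Normal ∧
      B.FiniteIndex ∧ B ≤ B₂ ∧ A.comap i = Subgroup.zpowers t ∧ B.comap j = Subgroup.zpowers t := by
  obtain ⟨s, hs, hA⟩ := compat1 A₂ φ hφ i hi hR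
  obtain ⟨t, ht, hB⟩ := compat1 B₂ ψ hψ j hj hR
  have hsf : (Subgroup.zpowers s).FiniteIndex := by
    obtain ⟨A, _, hAf, -, h⟩ := hA 1 one_ne_zero
    rw [pow_one] at h
    rw [← h]
    constructor
    rw [Subgroup.index_comap]
    exact fun h1 => Subgroup.FiniteIndex.index_ne_zero (H := A.subgroupOf i.range) h1
  have htf : (Subgroup.zpowers t).FiniteIndex := by
    obtain ⟨B, _, hBf, -, h⟩ := hB 1 one_ne_zero
    rw [pow_one] at h
    rw [← h]
    constructor
    rw [Subgroup.index_comap]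
    exact fun h1 => Subgroup.FiniteIndex.index_ne_zero (H := B.subgroupOf j.range) h1
  obtain ⟨n, hn0, -, hn⟩ := Subgroup.exists_pow_mem_of_index_ne_zero htf.index_ne_zero s
  obtain ⟨k, hk⟩ := Subgroup.mem_zpowers_iff.mp hn
  by_cases hk0 : k = 0
  · rw [hk0, zpow_zero] at hk
    have hs1 : s = 1 := hs n (by exact_mod_cast hn0.ne') (by rw [zpow_natCast]; exact hk.symm)
    have hfin : (⊥ : Subgroup R).FiniteIndex := by
      rw [← Subgroup.zpowers_one_eq_bot, ← hs1]
      exact hsf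
    obtain ⟨m, hm0, -, hm⟩ := Subgroup.exists_pow_mem_of_index_ne_zero hfin.index_ne_zero t
    rw [Subgroup.mem_bot] at hm
    have ht1 : t = 1 := ht m (by exact_mod_cast hm0.ne') (by rw [zpow_natCast]; exact hm)
    obtain ⟨A, a1, a2, a3, a4⟩ := hA 1 one_ne_zero
    obtain ⟨B, b1, b2, b3, b4⟩ := hB 1 one_ne_zero
    rw [pow_one] at a4 b4
    exact ⟨A, B, 1, a1, a2, a3, b1, b2, b3, by rw [a4, hs1], by rw [b4, ht1]⟩
  · obtain ⟨A, a1, a2, a3, a4⟩ := hA n hn0.ne'
    obtain ⟨B, b1, b2, b3, b4⟩ := hB k.natAbs (Int.natAbs_ne_zero.mpr hk0)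
    refine ⟨A, B, s ^ n, a1, a2, a3, b1, b2, b3, a4, ?_⟩
    rw [b4, ← hk]
    rcases Int.natAbs_eq k with h | h
    · conv_rhs => rw [h]
      rw [zpow_natCast]
    · conv_rhs => rw [h]
      rw [zpow_neg, zpow_natCast, Subgroup.zpowers_inv]

end Pool.Agent.Q104.VA
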