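import Mathlib

/-!
# The swap of two free actions
-/

set_option autoImplicit false

namespace Pool.Agent.Q104.VA

universe u v w

/-- A set with a free action of `H` has an equivariant map to `H`. -/
theorem exists_equivariant {H : Type w} [Group H] {X : Type u} (α : H →* Equiv.Perm X)
    (hα : ∀ h x, α h x = x → h = 1) : ∃ ρ : X → H, ∀ h x, ρ (α h x) = h * ρ x := by
  classical
  let st : Setoid X :=
    { r := fun x y => ∃ h, α h x = y
      iseqv :=
        ⟨fun x => ⟨1, by simp⟩,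
         fun {x y} ⟨h, hh⟩ => ⟨h⁻¹, by rw [← hh, ← Equiv.Perm.mul_apply, ← map_mul]; simp⟩,
         fun {x y z} ⟨h, hh⟩ ⟨g, hg⟩ => ⟨g * h, by rw [map_mul, Equiv.Perm.mul_apply, hh, hg]⟩⟩ }
  have hrep : ∀ x : X, ∃ h, α h (Quotient.out (Quotient.mk st x)) = x := fun x =>
    Quotient.mk_out x
  choose ρ hρ using hrep
  refine ⟨ρ, fun h x => ?_⟩
  have e1 : Quotient.mk st (α h x) = Quotient.mk st x :=
    Quotient.sound ⟨h⁻¹, by rw [← Equiv.Perm.mul_apply, ← map_mul]; simp⟩
  have e2 := hρ (α h x)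
  rw [e1] at e2
  have e3 : α ((h * ρ x)⁻¹ * ρ (α h x)) (Quotient.out (Quotient.mk st x)) =
      Quotient.out (Quotient.mk st x) := by
    rw [map_mul, Equiv.Perm.mul_apply, e2, map_inv, map_mul, mul_inv_rev, Equiv.Perm.mul_apply]
    have e4 : (α h)⁻¹ (α h x) = x := (α h).symm_apply_apply x
    rw [e4]
    conv_lhs => rw [← hρ x]
    have e5 : ∀ z, (α (ρ x))⁻¹ (α (ρ x) z) = z := fun z => (α (ρ x)).symm_apply_apply z
    have e6 : ∀ z, α (ρ z) (Quotient.out (Quotient.mk st z)) = z := hρ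
    rw [e6 x]
    have e7 := e5 (Quotient.out (Quotient.mk st x))
    rw [e6 x] at e7
    exact e7
  have e8 := hα _ _ e3
  rw [inv_mul_eq_one] at e8
  exact e8.symm

/-- **Swap.** For free actions of `H` on `X` and `Y` there is a permutation of `X × Y` which carries
the action on the first factor to the action on the second factor. -/
theorem swap {H : Type w} [Group H] {X : Type u} {Y : Type v} (α : H →* Equiv.Perm X)
    (β : H →* Equiv.Perm Y) (hα : ∀ h x, α h x = x → h = 1) (hβ : ∀ h y, β h y = y → h = 1) :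
    ∃ θ : Equiv.Perm (X × Y),
      (∀ h x y, θ (α h x, y) = ((θ (x, y)).1, β h (θ (x, y)).2)) ∧
      ∀ x y, ∃ h, θ (x, y) = (α h x, β h⁻¹ y) := by
  obtain ⟨ρ, hρ⟩ := exists_equivariant α hα
  obtain ⟨σ, hσ⟩ := exists_equivariant β hβ
  let F : X × Y → X × Y := fun p => (α (σ p.2 * (ρ p.1)⁻¹) p.1, β (ρ p.1 * (σ p.2)⁻¹) p.2)
  have hF : Function.Involutive F := by
    rintro ⟨x, y⟩
    simp only [F, hρ, hσ, ← Equiv.Perm.mul_apply, ← map_mul]
    ext
    · simp only
      have : σ y * (ρ x)⁻¹ * ρ x = σ y := by group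
      have h2 : ρ x * (σ y)⁻¹ * σ y = ρ x := by group
      rw [this, h2]
      have h3 : ρ x * (σ y)⁻¹ * (σ y * (ρ x)⁻¹) = 1 := by group
      rw [h3, map_one, Equiv.Perm.one_apply]
    · simp only
      have : σ y * (ρ x)⁻¹ * ρ x = σ y := by group
      have h2 : ρ x * (σ y)⁻¹ * σ y = ρ x := by group
      rw [this, h2]
      have h3 : σ y * (ρ x)⁻¹ * (ρ x * (σ y)⁻¹) = 1 := by group
      rw [h3, map_one, Equiv.Perm.one_apply]
  refine ⟨hF.toPerm, ?_, ?_⟩
  · intro h x y
    show F (α h x, y) = ((F (x, y)).1, β h (F (x, y)).2)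
    simp only [F, hρ, ← Equiv.Perm.mul_apply, ← map_mul]
    ext
    · simp only
      congr 2
      group
    · simp only
      congr 2
      group
  · intro x y
    refine ⟨σ y * (ρ x)⁻¹, ?_⟩
    show F (x, y) = _
    simp only [F, mul_inv_rev, inv_inv]

end Pool.Agent.Q104.VA
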