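import Pool.Agent.Q104.VA.Ind
import Pool.Agent.Q104.VA.Swap

/-!
# Gluing two actions on a product
-/

set_option autoImplicit false

namespace Pool.Agent.Q104.VA

universe u v w

variable {X Y : Type u} {V V₁ V₂ : Type v} [AddCommGroup V] [AddCommGroup V₁] [AddCommGroup V₂]

/-- The action on the first factor. -/
def tensL {P : Type*} [Group P] (a : P →* Mon X V₁) (T : Y → V₁ →+ V) : P →* Mon (X × Y) V where
  toFun p := ⟨fun z => T z.2 ((a p).v z.1), Equiv.prodCongr (a p).s (Equiv.refl Y)⟩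
  map_one' := by
    ext z
    · simp
    · simp
    · simp
  map_mul' p q := by
    ext z
    · simp only [map_mul, Mon.mul_v, map_add]
      rfl
    · simp
    · simp

/-- The action on the second factor. -/
def tensR {Q : Type*} [Group Q] (c : Q →* Mon Y V₂) (T : X → V₂ →+ V) : Q →* Mon (X × Y) V where
  toFun q := ⟨fun z => T z.1 ((c q).v z.2), Equiv.prodCongr (Equiv.refl X) (c q).s⟩
  map_one' := by
    ext z
    · simp
    · simp
    · simp
  map_mul' p q := by
    ext z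
    · simp only [map_mul, Mon.mul_v, map_add]
      rfl
    · simp
    · simp

theorem tensL_v {P : Type*} [Group P] (a : P →* Mon X V₁) (T : Y → V₁ →+ V) (p : P) (x : X)
    (y : Y) : (tensL a T p).v (x, y) = T y ((a p).v x) := rfl

theorem tensL_s {P : Type*} [Group P] (a : P →* Mon X V₁) (T : Y → V₁ →+ V) (p : P) (x : X)
    (y : Y) : (tensL a T p).s (x, y) = ((a p).s x, y) := rfl

theorem tensR_v {Q : Type*} [Group Q] (c : Q →* Mon Y V₂) (T : X → V₂ →+ V) (q : Q) (x : X)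
    (y : Y) : (tensR c T q).v (x, y) = T x ((c q).v y) := rfl

theorem tensR_s {Q : Type*} [Group Q] (c : Q →* Mon Y V₂) (T : X → V₂ →+ V) (q : Q) (x : X)
    (y : Y) : (tensR c T q).s (x, y) = (x, (c q).s y) := rfl

theorem glue2 {R : Type w} [Group R] (a : R →* Mon X V₁) (c : R →* Mon Y V₂) (R₁ : Subgroup R)
    [R₁.Normal] [R₁.FiniteIndex]
    (ha0 : ∀ r ∈ R₁, (a r).s = 1) (ha1 : ∀ r x, (a r).s x = x → r ∈ R₁)
    (hc0 : ∀ r ∈ R₁, (c r).s = 1) (hc1 : ∀ r y, (c r).s y = y → r ∈ R₁)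
    (T : Y → V₁ →+ V) (T' : X → V₂ →+ V)
    (h2 : ∀ r ∈ R₁, ∀ g x y,
      T y ((a r).v x) = T' ((a g).s x) ((c r).v ((c g⁻¹).s y))) :
    ∃ m : Mon (X × Y) V,
      (∀ r, Mon.scale (R₁.index : ℤ) (tensL a T r) =
        m⁻¹ * Mon.scale (R₁.index : ℤ) (tensR c T' r) * m) ∧
      ∀ x y, ∃ g, m.s (x, y) = ((a g).s x, (c g⁻¹).s y) := by
  let α : R ⧸ R₁ →* Equiv.Perm X := QuotientGroup.lift R₁ (Mon.toPerm.comp a) (fun r hr => ha0 r hr)
  let β : R ⧸ R₁ →* Equiv.Perm Y := QuotientGroup.lift R₁ (Mon.toPerm.comp c) (fun r hr => hc0 r hr)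
  have hα : ∀ h x, α h x = x → h = 1 := by
    intro h x
    induction h using QuotientGroup.induction_on with
    | H r =>
      intro h3
      exact (QuotientGroup.eq_one_iff r).mpr (ha1 r x h3)
  have hβ : ∀ h x, β h x = x → h = 1 := by
    intro h x
    induction h using QuotientGroup.induction_on with
    | H r =>
      intro h3
      exact (QuotientGroup.eq_one_iff r).mpr (hc1 r x h3)
  obtain ⟨θ, hθ1, hθ2⟩ := swap α β hα hβ
  have hθ3 : ∀ x y, ∃ g, θ (x, y) = ((a g).s x, (c g⁻¹).s y) := by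
    intro x y
    obtain ⟨h, hh⟩ := hθ2 x y
    induction h using QuotientGroup.induction_on with
    | H r => exact ⟨r, hh⟩
  obtain ⟨m, hm1, hm2⟩ := glue (tensL a T) (tensR c T') θ R₁
    (by
      rintro r ⟨x, y⟩
      rw [tensL_s]
      have h3 := hθ1 (r : R ⧸ R₁) x y
      exact h3)
    (by
      rintro r hr ⟨x, y⟩
      obtain ⟨g, hg⟩ := hθ3 x y
      rw [tensL_v, hg, tensR_v]
      exact h2 r hr g x y)
  refine ⟨m, hm2, ?_⟩
  rw [hm1]
  exact hθ3

end Pool.Agent.Q104.VA
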