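import Pool.Agent.Q104.VA.Mon

/-!
# Induced homomorphisms into monomial groups
-/

set_option autoImplicit false

namespace Pool.Agent.Q104.VA

universe u v w

variable {P : Type u} [Group P] (A : Subgroup P) {V : Type v} [AddCommGroup V]

theorem ind_mem (p : P) (x : P ⧸ A) :
    (Quotient.out x)⁻¹ * p * (Quotient.out (p⁻¹ • x)) ∈ A := by
  rw [mul_assoc, ← QuotientGroup.eq]
  rw [QuotientGroup.out_eq']
  have : ((p * Quotient.out (p⁻¹ • x) : P) : P ⧸ A) = p • ((Quotient.out (p⁻¹ • x) : P) : P ⧸ A) :=
    rfl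
  rw [this, QuotientGroup.out_eq', smul_inv_smul]

/-- The homomorphism `P → Mon (P ⧸ A) V` induced by a homomorphism `A → V`. -/
noncomputable def ind (φ : A →* Multiplicative V) : P →* Mon (P ⧸ A) V where
  toFun p := ⟨fun x => (φ ⟨_, ind_mem A p x⟩).toAdd, MulAction.toPermHom P (P ⧸ A) p⟩
  map_one' := by
    ext x
    · simp only [Mon.one_v]
      have : (⟨_, ind_mem A 1 x⟩ : A) = 1 := by
        ext
        simp
      rw [this, map_one]
      rfl
    · simp
  map_mul' p q := by
    ext x
    · simp only [Mon.mul_v]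
      have : (⟨_, ind_mem A (p * q) x⟩ : A) =
          ⟨_, ind_mem A p x⟩ * ⟨_, ind_mem A q (p⁻¹ • x)⟩ := by
        ext
        simp only [Subgroup.coe_mul, mul_inv_rev, mul_smul]
        group
      rw [this, map_mul]
      rfl
    · simp [mul_smul]

theorem ind_s (φ : A →* Multiplicative V) (p : P) (x : P ⧸ A) : (ind A φ p).s x = p • x := rfl

theorem ind_s_inv (φ : A →* Multiplicative V) (p : P) (x : P ⧸ A) :
    (ind A φ p).s⁻¹ x = p⁻¹ • x := by
  rw [← Mon.inv_s, ← map_inv, ind_s]

theorem ind_trivial [A.Normal] (φ : A →* Multiplicative V) (p : P) (hp : p ∈ A) :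
    (ind A φ p).s = 1 := by
  ext x
  rw [ind_s, Equiv.Perm.one_apply]
  induction x using QuotientGroup.induction_on with
  | H z =>
    show ((p * z : P) : P ⧸ A) = (z : P ⧸ A)
    rw [QuotientGroup.eq, mul_inv_rev, mul_assoc]
    have := ‹A.Normal›.conj_mem p⁻¹ (inv_mem hp) z⁻¹
    simpa [mul_assoc] using this

theorem mem_of_ind_trivial (φ : A →* Multiplicative V) (p : P) (x : P ⧸ A) [A.Normal]
    (hp : (ind A φ p).s x = x) : p ∈ A := by
  rw [ind_s] at hp
  induction x using QuotientGroup.induction_on with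
  | H z =>
    have h1 : ((p * z : P) : P ⧸ A) = (z : P ⧸ A) := hp
    rw [eq_comm, QuotientGroup.eq] at h1
    have h2 := ‹A.Normal›.conj_mem _ h1 z
    have h3 : z * (z⁻¹ * (p * z)) * z⁻¹ = p := by group
    rwa [h3] at h2

/-- On `A` the function part is the restriction to the conjugates. -/
theorem ind_v_eq_zero [A.Normal] (φ : A →* Multiplicative V) (hφ : Function.Injective φ) (p : P)
    (hp : p ∈ A) (x : P ⧸ A) (h0 : (ind A φ p).v x = 0) : p = 1 := by
  have h1 : φ ⟨_, ind_mem A p x⟩ = 1 := h0
  rw [← map_one φ] at h1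
  have h2 := hφ h1
  have h3 : (Quotient.out x)⁻¹ * p * (Quotient.out (p⁻¹ • x)) = 1 := congrArg Subtype.val h2
  have h4 : p⁻¹ • x = x := by
    rw [← ind_s A φ, ind_trivial A φ _ (inv_mem hp)]
    rfl
  rw [h4] at h3
  have h5 : p = Quotient.out x * ((Quotient.out x)⁻¹ * p * (Quotient.out x)) *
      (Quotient.out x)⁻¹ := by group
  rw [h5, h3]
  group

section conj

variable {R : Type w} [Group R] {X : Type u} (c : R →* Mon X V)

/-- The function part of the conjugates of an element with trivial permutation part. -/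
theorem conj_v (g t : R) (ht : (c t).s = 1) (x : X) :
    (c t).v ((c g).s x) = (c (g⁻¹ * t * g)).v x := by
  have h1 : c (t * g) = c (g * (g⁻¹ * t * g)) := by
    congr 1
    group
  rw [map_mul, map_mul] at h1
  have h2 := congrArg (fun z => z.v ((c g).s x)) h1
  have h3 : (c g).s⁻¹ ((c g).s x) = x := (c g).s.symm_apply_apply x
  simp only [Mon.mul_v, ht, inv_one, Equiv.Perm.one_apply, h3] at h2
  rw [add_comm] at h2
  exact add_left_cancel h2

/-- The function part of the powers of an element with trivial permutation part. -/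
theorem zpow_v (t : R) (ht : (c t).s = 1) (n : ℤ) (x : X) :
    (c (t ^ n)).v x = n • (c t).v x := by
  have hz : ∀ m : ℤ, (c (t ^ m)).s = 1 := by
    intro m
    have : (c (t ^ m)).s = (c t).s ^ m := by
      rw [← Mon.toPerm_apply, ← Mon.toPerm_apply, map_zpow, map_zpow]
    rw [this, ht, one_zpow]
  let f : Multiplicative ℤ →* Multiplicative V :=
    { toFun := fun m => Multiplicative.ofAdd ((c (t ^ m.toAdd)).v x)
      map_one' := by simp
      map_mul' := by
        intro a b
        simp only [toAdd_mul, zpow_add, map_mul, Mon.mul_v, hz, inv_one, Equiv.Perm.one_apply,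
          ofAdd_add] }
  have h1 : f (Multiplicative.ofAdd n) = (f (Multiplicative.ofAdd 1)) ^ n := by
    rw [← map_zpow]
    congr 1
    rw [← ofAdd_zsmul]
    simp
  have h2 := congrArg Multiplicative.toAdd h1
  simpa [f] using h2

end conj

end Pool.Agent.Q104.VA
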