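import Mathlib

/-!
# Monomial groups `(X → V) ⋊ Perm X` and the gluing lemma
-/

set_option autoImplicit false

namespace Pool.Agent.Q104.VA

universe u v w

/-- The group of pairs `(v, s)` of a function `v : X → V` and a permutation `s` of `X`, with the
product `(v, s) (w, t) = (v + w ∘ s⁻¹, s t)`. -/
@[ext] structure Mon (X : Type u) (V : Type v) where
  v : X → V
  s : Equiv.Perm X

namespace Mon

variable {X : Type u} {V : Type v} [AddCommGroup V]

instance : Mul (Mon X V) := ⟨fun a b => ⟨fun x => a.v x + b.v (a.s⁻¹ x), a.s * b.s⟩⟩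
instance : One (Mon X V) := ⟨⟨fun _ => 0, 1⟩⟩
instance : Inv (Mon X V) := ⟨fun a => ⟨fun x => -a.v (a.s x), a.s⁻¹⟩⟩

@[simp] theorem mul_v (a b : Mon X V) (x : X) : (a * b).v x = a.v x + b.v (a.s⁻¹ x) := rfl
@[simp] theorem mul_s (a b : Mon X V) : (a * b).s = a.s * b.s := rfl
@[simp] theorem one_v (x : X) : (1 : Mon X V).v x = 0 := rfl
@[simp] theorem one_s : (1 : Mon X V).s = 1 := rfl
@[simp] theorem inv_v (a : Mon X V) (x : X) : (a⁻¹).v x = -a.v (a.s x) := rfl
@[simp] theorem inv_s (a : Mon X V) : (a⁻¹).s = a.s⁻¹ := rfl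

instance : Group (Mon X V) := Group.ofLeftAxioms
  (by
    intro a b c
    ext x
    · simp [add_assoc, mul_inv_rev]
    · simp [mul_assoc])
  (by
    intro a
    ext x
    · simp
    · simp)
  (by
    intro a
    ext x
    · simp
    · simp)

/-- The permutation part. -/
def toPerm : Mon X V →* Equiv.Perm X where
  toFun a := a.s
  map_one' := rfl
  map_mul' _ _ := rfl

@[simp] theorem toPerm_apply (a : Mon X V) : toPerm a = a.s := rfl

/-- Multiplication of the function part by an integer. -/
def scale (n : ℤ) : Mon X V →* Mon X V where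
  toFun a := ⟨fun x => n • a.v x, a.s⟩
  map_one' := by ext <;> simp
  map_mul' a b := by ext <;> simp [smul_add]

@[simp] theorem scale_v (n : ℤ) (a : Mon X V) (x : X) : (scale n a).v x = n • a.v x := rfl
@[simp] theorem scale_s (n : ℤ) (a : Mon X V) : (scale n a).s = a.s := rfl

/-- elements with trivial permutation part commute -/
theorem comm_of_trivial (a b : Mon X V) (ha : a.s = 1) (hb : b.s = 1) : a * b = b * a := by
  ext x
  · simp [ha, hb, add_comm]
  · simp [ha, hb]

/-- The value at a point and under an additive functional, for the elements with trivial permutation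
part. -/
def evalHom (x : X) (f : V →+ ℤ) : (toPerm : Mon X V →* Equiv.Perm X).ker →* Multiplicative ℤ where
  toFun a := Multiplicative.ofAdd (f (a.1.v x))
  map_one' := by simp
  map_mul' a b := by
    have ha : a.1.s = 1 := a.2
    simp [ha]

end Mon

/-- **Gluing lemma.** Two homomorphisms `a, b : R → Mon X V` whose permutation parts are conjugate by
`θ` and whose function parts correspond on a normal subgroup of finite index, which acts trivially on
`X`, are conjugate after multiplication of the function parts by the index. -/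
theorem glue {R : Type w} [Group R] {X : Type u} {V : Type v} [AddCommGroup V]
    (a b : R →* Mon X V) (θ : Equiv.Perm X) (R₁ : Subgroup R) [R₁.Normal] [R₁.FiniteIndex]
    (h1 : ∀ r x, θ ((a r).s x) = (b r).s (θ x))
    (h2 : ∀ r ∈ R₁, ∀ x, (a r).v x = (b r).v (θ x)) :
    ∃ m : Mon X V, m.s = θ ∧ ∀ r, Mon.scale (R₁.index : ℤ) (a r) =
      m⁻¹ * Mon.scale (R₁.index : ℤ) (b r) * m := by
  classical
  have hinv : ∀ r x, (b r).s⁻¹ (θ x) = θ ((a r).s⁻¹ x) := by
    intro r x
    rw [Equiv.Perm.inv_eq_iff_eq, ← h1]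
    simp
  -- the difference
  let D : R → X → V := fun r x => (a r).v x - (b r).v (θ x)
  have hD : ∀ r r' x, D (r * r') x = D r x + D r' ((a r).s⁻¹ x) := by
    intro r r' x
    simp only [D, map_mul, Mon.mul_v, hinv]
    abel
  have hD1 : ∀ r ∈ R₁, ∀ x, D r x = 0 := by
    intro r hr x
    simp only [D, h2 r hr x, sub_self]
  have : Finite (R ⧸ R₁) := inferInstance
  have : Fintype (R ⧸ R₁) := Fintype.ofFinite _
  let E : R ⧸ R₁ → X → V := fun q => Quotient.liftOn' q (fun r => D r) (by
    intro r r' hrr'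
    have h3 : r⁻¹ * r' ∈ R₁ := QuotientGroup.leftRel_apply.mp hrr'
    funext x
    have h4 : r' = r * (r⁻¹ * r') := by group
    rw [h4, hD, hD1 _ h3, add_zero])
  have hE : ∀ (r : R) (q : R ⧸ R₁) x, E ((r : R ⧸ R₁) * q) x = D r x + E q ((a r).s⁻¹ x) := by
    intro r q x
    induction q using QuotientGroup.induction_on with
    | H z => exact hD r z x
  let S : X → V := fun x => ∑ q : R ⧸ R₁, E q x
  have hS : ∀ r x, S x = (R₁.index : ℤ) • D r x + S ((a r).s⁻¹ x) := by
    intro r x
    have e1 : S x = ∑ q : R ⧸ R₁, E ((r : R ⧸ R₁) * q) x :=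
      (Equiv.sum_comp (Equiv.mulLeft (r : R ⧸ R₁)) (fun q => E q x)).symm
    rw [e1]
    simp only [hE, Finset.sum_add_distrib, Finset.sum_const, Finset.card_univ, S]
    congr 1
    rw [Subgroup.index_eq_card, Nat.card_eq_fintype_card, natCast_zsmul]
  have hθ : ∀ x, θ⁻¹ (θ x) = x := fun x => θ.symm_apply_apply x
  refine ⟨⟨fun x => -S (θ⁻¹ x), θ⟩, rfl, fun r => ?_⟩
  ext x
  · have e2 : (b r).s⁻¹ (θ x) = θ ((a r).s⁻¹ x) := hinv r x
    have e3 := hS r x
    simp only [Mon.scale_v, Mon.mul_v, Mon.inv_v, Mon.inv_s, Mon.mul_s, Mon.scale_s, inv_inv,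
      mul_inv_rev, Equiv.Perm.mul_apply, hθ, neg_neg, e2, D, smul_sub] at e3 ⊢
    rw [e3]
    abel
  · simp only [Mon.scale_s, Mon.mul_s, Mon.inv_s, Equiv.Perm.mul_apply]
    rw [← h1, hθ]

end Pool.Agent.Q104.VA
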