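import Pool.Agent.Q104.VA.Glue2

/-!
# Homomorphisms of two virtually abelian groups which agree on a virtually cyclic subgroup
-/

set_option autoImplicit false

namespace Pool.Agent.Q104.VA

universe u w

/-- What is constructed for the pair of embeddings `i : R → P`, `j : R → Q`. -/
def Good {P Q : Type u} {R : Type w} [Group P] [Group Q] [Group R] (i : R →* P) (j : R →* Q) :
    Prop :=
  ∃ (X : Type u) (V : Type) (_ : Finite X) (_ : AddCommGroup V) (f : P →* Mon X V)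
    (g : Q →* Mon X V), (∀ r, f (i r) = g (j r)) ∧ Function.Injective f ∧ Function.Injective g ∧
    ∃ (x : X) (F : V →+ ℤ), ∀ p q, f p = g q → (f p).s = 1 → F ((f p).v x) = 0 → f p = 1

theorem conj_trivial_v {X : Type u} {V : Type*} [AddCommGroup V] (m z : Mon X V) (hz : z.s = 1)
    (x : X) : (m⁻¹ * z * m).v x = z.v (m.s x) := by
  simp [hz]

theorem conj_s_eq_one {X : Type u} {V : Type*} [AddCommGroup V] (m z : Mon X V)
    (hz : (m⁻¹ * z * m).s = 1) : z.s = 1 := by
  simp only [Mon.mul_s, Mon.inv_s] at hz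
  have h : z.s = m.s * (m.s⁻¹ * z.s * m.s) * m.s⁻¹ := by group
  rw [h, hz]
  group

theorem comap_finiteIndex {G H : Type*} [Group G] [Group H] (f : G →* H) (A : Subgroup H)
    [A.FiniteIndex] : (A.comap f).FiniteIndex := by
  constructor
  rw [Subgroup.index_comap]
  intro h
  exact Subgroup.FiniteIndex.index_ne_zero (H := A.subgroupOf f.range) h

section inf

variable {P Q : Type u} {R : Type w} [Group P] [Group Q] [Group R]
  (A : Subgroup P) (B : Subgroup Q) [A.Normal] [B.Normal] [A.FiniteIndex] [B.FiniteIndex]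
  {K L : Type} (φ : A →* Multiplicative (K → ℤ)) (ψ : B →* Multiplicative (L → ℤ))

theorem good_infinite (hφ : Function.Injective φ) (hψ : Function.Injective ψ)
    (i : R →* P) (j : R →* Q) (hi : Function.Injective i) (hj : Function.Injective j) (t : R)
    (ht : t ≠ 1) (hA : A.comap i = Subgroup.zpowers t) (hB : B.comap j = Subgroup.zpowers t) :
    Good i j := by
  classical
  let a := ind A φ
  let c := ind B ψ
  let a' := a.comp i
  let c' := c.comp j
  have htA : i t ∈ A := by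
    have : t ∈ A.comap i := by rw [hA]; exact Subgroup.mem_zpowers t
    exact this
  have htB : j t ∈ B := by
    have : t ∈ B.comap j := by rw [hB]; exact Subgroup.mem_zpowers t
    exact this
  have hit : i t ≠ 1 := fun h => ht (hi (by rw [h, map_one]))
  have hjt : j t ≠ 1 := fun h => ht (hj (by rw [h, map_one]))
  have ha0 : ∀ r ∈ A.comap i, (a' r).s = 1 := fun r hr => ind_trivial A φ _ hr
  have hc0 : ∀ r ∈ A.comap i, (c' r).s = 1 := by
    intro r hr
    rw [hA, ← hB] at hr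
    exact ind_trivial B ψ _ hr
  have ha1 : ∀ r x, (a' r).s x = x → r ∈ A.comap i := fun r x hx =>
    mem_of_ind_trivial A φ _ x hx
  have hc1 : ∀ r x, (c' r).s x = x → r ∈ A.comap i := by
    intro r x hx
    rw [hA, ← hB]
    exact mem_of_ind_trivial B ψ _ x hx
  have hat : (a' t).s = 1 := ha0 t htA
  have hct : (c' t).s = 1 := hc0 t htA
  -- the values at `t` do not vanish
  have hane : ∀ x, ∃ k, (a' t).v x k ≠ 0 := by
    intro x
    by_contra hcon
    push Not at hcon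
    exact hit (ind_v_eq_zero A φ hφ _ htA x (funext hcon))
  have hcne : ∀ y, ∃ l, (c' t).v y l ≠ 0 := by
    intro y
    by_contra hcon
    push Not at hcon
    exact hjt (ind_v_eq_zero B ψ hψ _ htB y (funext hcon))
  let T : Q ⧸ B → (K → ℤ) →+ (K × L → ℤ) := fun y =>
    { toFun := fun v kl => v kl.1 * (c' t).v y kl.2
      map_zero' := by ext; simp
      map_add' := by intros; ext; simp [add_mul] }
  let T' : P ⧸ A → (L → ℤ) →+ (K × L → ℤ) := fun x =>
    { toFun := fun v kl => (a' t).v x kl.1 * v kl.2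
      map_zero' := by ext; simp
      map_add' := by intros; ext; simp [mul_add] }
  have hT : ∀ y v kl, T y v kl = v kl.1 * (c' t).v y kl.2 := fun _ _ _ => rfl
  have hT' : ∀ x v kl, T' x v kl = (a' t).v x kl.1 * v kl.2 := fun _ _ _ => rfl
  have h2 : ∀ r ∈ A.comap i, ∀ g x y,
      T y ((a' r).v x) = T' ((a' g).s x) ((c' r).v ((c' g⁻¹).s y)) := by
    intro r hr g x y
    rw [hA] at hr
    obtain ⟨m, rfl⟩ := Subgroup.mem_zpowers_iff.mp hr
    have hn : (A.comap i).Normal := inferInstance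
    have htR : t ∈ A.comap i := htA
    have h3 := hn.conj_mem t htR g⁻¹
    have h4 := hn.conj_mem t htR g
    rw [inv_inv, hA] at h3
    rw [hA] at h4
    obtain ⟨e, he⟩ := Subgroup.mem_zpowers_iff.mp h3
    obtain ⟨e', he'⟩ := Subgroup.mem_zpowers_iff.mp h4
    have h5 : t ^ (e' * e) = t := by
      rw [zpow_mul, he', conj_zpow, he]
      group
    have h6 : (a' t).v ((a' g).s x) = e • (a' t).v x := by
      rw [conj_v a' g t hat, ← he, zpow_v a' t hat]
    have h7 : (c' t).v ((c' g⁻¹).s y) = e' • (c' t).v y := by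
      rw [conj_v c' g⁻¹ t hct, inv_inv, ← he', zpow_v c' t hct]
    have h8 : (a' t).v x = (e' * e) • (a' t).v x := by
      rw [← zpow_v a' t hat, h5]
    ext kl
    rw [hT, hT', zpow_v a' t hat, zpow_v c' t hct, h6, h7]
    have h9 := congrFun h8 kl.1
    simp only [Pi.smul_apply, smul_eq_mul] at h9 ⊢
    calc m * (a' t).v x kl.1 * (c' t).v y kl.2
        = m * (e' * e * (a' t).v x kl.1) * (c' t).v y kl.2 := by rw [← h9]
      _ = _ := by ring
  have hfin : (A.comap i).FiniteIndex := comap_finiteIndex i A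
  obtain ⟨m, hm1, hm2⟩ := glue2 a' c' (A.comap i) ha0 ha1 hc0 hc1 T T' h2
  set n : ℤ := ((A.comap i).index : ℤ) with hn
  have hn0 : n ≠ 0 := by
    rw [hn]
    exact_mod_cast hfin.index_ne_zero
  let f : P →* Mon ((P ⧸ A) × (Q ⧸ B)) (K × L → ℤ) := (Mon.scale n).comp (tensL a T)
  let g : Q →* Mon ((P ⧸ A) × (Q ⧸ B)) (K × L → ℤ) :=
    (MulAut.conj m⁻¹).toMonoidHom.comp ((Mon.scale n).comp (tensR c T'))
  have hg : ∀ q, g q = m⁻¹ * Mon.scale n (tensR c T' q) * m := by
    intro q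
    show m⁻¹ * Mon.scale n (tensR c T' q) * (m⁻¹)⁻¹ = _
    rw [inv_inv]
  have hfv : ∀ p x y kl, (f p).v (x, y) kl = n * ((a p).v x kl.1 * (c' t).v y kl.2) :=
    fun _ _ _ _ => rfl
  have hfs : ∀ p x y, (f p).s (x, y) = ((a p).s x, y) := fun _ _ _ => rfl
  have hfA : ∀ p, (f p).s = 1 → p ∈ A := by
    intro p hp
    have h3 : (f p).s ((1 : P ⧸ A), (1 : Q ⧸ B)) = ((1 : P ⧸ A), (1 : Q ⧸ B)) := by rw [hp]; rfl
    rw [hfs] at h3
    exact mem_of_ind_trivial A φ p _ (congrArg Prod.fst h3)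
  have hgB : ∀ q, (g q).s = 1 → q ∈ B := by
    intro q hq
    rw [hg] at hq
    have h4 := conj_s_eq_one _ _ hq
    have h3 : (Mon.scale n (tensR c T' q)).s ((1 : P ⧸ A), (1 : Q ⧸ B)) =
        ((1 : P ⧸ A), (1 : Q ⧸ B)) := by rw [h4]; rfl
    have h5 : (c q).s (1 : Q ⧸ B) = 1 := congrArg Prod.snd h3
    exact mem_of_ind_trivial B ψ q _ h5
  have hgv : ∀ q, (g q).s = 1 → ∀ z, (g q).v z = (Mon.scale n (tensR c T' q)).v (m.s z) := by
    intro q hq z
    rw [hg] at hq ⊢
    exact conj_trivial_v _ _ (conj_s_eq_one _ _ hq) z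
  -- the value at a point
  obtain ⟨l0, hl0⟩ := hcne 1
  obtain ⟨g0, hg0⟩ := hm2 1 1
  obtain ⟨k0, hk0⟩ := hane ((a' g0).s 1)
  refine ⟨(P ⧸ A) × (Q ⧸ B), K × L → ℤ, inferInstance, inferInstance, f, g, ?_, ?_, ?_,
    ((1 : P ⧸ A), (1 : Q ⧸ B)), Pi.evalAddMonoidHom _ (k0, l0), ?_⟩
  · intro r
    rw [hg]
    exact hm1 r
  · rw [injective_iff_map_eq_one]
    intro p hp
    have h3 := hfA p (by rw [hp]; rfl)
    apply ind_v_eq_zero A φ hφ p h3 1
    ext k
    have h4 : (f p).v ((1 : P ⧸ A), (1 : Q ⧸ B)) (k, l0) = 0 := by rw [hp]; rfl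
    rw [hfv] at h4
    rcases mul_eq_zero.mp h4 with h5 | h5
    · exact absurd h5 hn0
    · rcases mul_eq_zero.mp h5 with h6 | h6
      · exact h6
      · exact absurd h6 hl0
  · rw [injective_iff_map_eq_one]
    intro q hq
    have h3 := hgB q (by rw [hq]; rfl)
    have h4 := hgv q (by rw [hq]; rfl)
    apply ind_v_eq_zero B ψ hψ q h3 ((c' g0⁻¹).s 1)
    ext l
    have h5 : (g q).v ((1 : P ⧸ A), (1 : Q ⧸ B)) (k0, l) = 0 := by rw [hq]; rfl
    rw [h4, hg0] at h5
    have h6 : n * ((a' t).v ((a' g0).s 1) k0 * (c q).v ((c' g0⁻¹).s 1) l) = 0 := h5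
    rcases mul_eq_zero.mp h6 with h7 | h7
    · exact absurd h7 hn0
    · rcases mul_eq_zero.mp h7 with h8 | h8
      · exact absurd h8 hk0
      · exact h8
  · intro p q hpq hs h0
    have hs' : (g q).s = 1 := by rw [← hpq]; exact hs
    have h3 := hfA p hs
    have h4 := hgv q hs' ((1 : P ⧸ A), (1 : Q ⧸ B))
    rw [hg0, ← hpq] at h4
    have h5 : ∀ k l, n * ((a p).v 1 k * (c' t).v 1 l) =
        n * ((a' t).v ((a' g0).s 1) k * (c q).v ((c' g0⁻¹).s 1) l) := by
      intro k l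
      exact congrFun h4 (k, l)
    have h0' : n * ((a p).v 1 k0 * (c' t).v 1 l0) = 0 := h0
    have h6 : (a p).v 1 k0 = 0 := by
      rcases mul_eq_zero.mp h0' with h7 | h7
      · exact absurd h7 hn0
      · rcases mul_eq_zero.mp h7 with h8 | h8
        · exact h8
        · exact absurd h8 hl0
    have h7 : ∀ l, (c q).v ((c' g0⁻¹).s 1) l = 0 := by
      intro l
      have h8 := h5 k0 l
      rw [h6, zero_mul, mul_zero, eq_comm] at h8
      rcases mul_eq_zero.mp h8 with h9 | h9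
      · exact absurd h9 hn0
      · rcases mul_eq_zero.mp h9 with h10 | h10
        · exact absurd h10 hk0
        · exact h10
    have h8 : p = 1 := by
      apply ind_v_eq_zero A φ hφ p h3 1
      ext k
      have h9 := h5 k l0
      rw [h7, mul_zero, mul_zero] at h9
      rcases mul_eq_zero.mp h9 with h10 | h10
      · exact absurd h10 hn0
      · rcases mul_eq_zero.mp h10 with h11 | h11
        · exact h11
        · exact absurd h11 hl0
    rw [h8, map_one]

theorem good_finite (hφ : Function.Injective φ) (hψ : Function.Injective ψ)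
    (i : R →* P) (j : R →* Q) (hA : A.comap i = ⊥) (hB : B.comap j = ⊥) :
    Good i j := by
  classical
  let a := ind A φ
  let c := ind B ψ
  let a' := a.comp i
  let c' := c.comp j
  have ha0 : ∀ r ∈ A.comap i, (a' r).s = 1 := fun r hr => ind_trivial A φ _ hr
  have hc0 : ∀ r ∈ A.comap i, (c' r).s = 1 := by
    intro r hr
    rw [hA, ← hB] at hr
    exact ind_trivial B ψ _ hr
  have ha1 : ∀ r x, (a' r).s x = x → r ∈ A.comap i := fun r x hx =>
    mem_of_ind_trivial A φ _ x hx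
  have hc1 : ∀ r x, (c' r).s x = x → r ∈ A.comap i := by
    intro r x hx
    rw [hA, ← hB]
    exact mem_of_ind_trivial B ψ _ x hx
  let T : Q ⧸ B → (K → ℤ) →+ ((K → ℤ) × (L → ℤ)) := fun _ => AddMonoidHom.inl _ _
  let T' : P ⧸ A → (L → ℤ) →+ ((K → ℤ) × (L → ℤ)) := fun _ => AddMonoidHom.inr _ _
  have h2 : ∀ r ∈ A.comap i, ∀ g x y,
      T y ((a' r).v x) = T' ((a' g).s x) ((c' r).v ((c' g⁻¹).s y)) := by
    intro r hr g x y
    rw [hA, Subgroup.mem_bot] at hr
    rw [hr, map_one, map_one, Mon.one_v, Mon.one_v, map_zero, map_zero]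
  have hfin : (A.comap i).FiniteIndex := comap_finiteIndex i A
  obtain ⟨m, hm1, hm2⟩ := glue2 a' c' (A.comap i) ha0 ha1 hc0 hc1 T T' h2
  set n : ℤ := ((A.comap i).index : ℤ) with hn
  have hn0 : n ≠ 0 := by
    rw [hn]
    exact_mod_cast hfin.index_ne_zero
  let f : P →* Mon ((P ⧸ A) × (Q ⧸ B)) ((K → ℤ) × (L → ℤ)) := (Mon.scale n).comp (tensL a T)
  let g : Q →* Mon ((P ⧸ A) × (Q ⧸ B)) ((K → ℤ) × (L → ℤ)) :=
    (MulAut.conj m⁻¹).toMonoidHom.comp ((Mon.scale n).comp (tensR c T'))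
  have hg : ∀ q, g q = m⁻¹ * Mon.scale n (tensR c T' q) * m := by
    intro q
    show m⁻¹ * Mon.scale n (tensR c T' q) * (m⁻¹)⁻¹ = _
    rw [inv_inv]
  have hfv : ∀ p x y, (f p).v (x, y) = n • ((a p).v x, (0 : L → ℤ)) :=
    fun _ _ _ => rfl
  have hfs : ∀ p x y, (f p).s (x, y) = ((a p).s x, y) := fun _ _ _ => rfl
  have hfA : ∀ p, (f p).s = 1 → p ∈ A := by
    intro p hp
    have h3 : (f p).s ((1 : P ⧸ A), (1 : Q ⧸ B)) = ((1 : P ⧸ A), (1 : Q ⧸ B)) := by rw [hp]; rfl
    rw [hfs] at h3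
    exact mem_of_ind_trivial A φ p _ (congrArg Prod.fst h3)
  have hgB : ∀ q, (g q).s = 1 → q ∈ B := by
    intro q hq
    rw [hg] at hq
    have h4 := conj_s_eq_one _ _ hq
    have h3 : (Mon.scale n (tensR c T' q)).s ((1 : P ⧸ A), (1 : Q ⧸ B)) =
        ((1 : P ⧸ A), (1 : Q ⧸ B)) := by rw [h4]; rfl
    have h5 : (c q).s (1 : Q ⧸ B) = 1 := congrArg Prod.snd h3
    exact mem_of_ind_trivial B ψ q _ h5
  have hgv : ∀ q, (g q).s = 1 → ∀ z, (g q).v z = (Mon.scale n (tensR c T' q)).v (m.s z) := by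
    intro q hq z
    rw [hg] at hq ⊢
    exact conj_trivial_v _ _ (conj_s_eq_one _ _ hq) z
  obtain ⟨g0, hg0⟩ := hm2 1 1
  refine ⟨(P ⧸ A) × (Q ⧸ B), (K → ℤ) × (L → ℤ), inferInstance, inferInstance, f, g, ?_, ?_, ?_,
    ((1 : P ⧸ A), (1 : Q ⧸ B)), 0, ?_⟩
  · intro r
    rw [hg]
    exact hm1 r
  · rw [injective_iff_map_eq_one]
    intro p hp
    have h3 := hfA p (by rw [hp]; rfl)
    apply ind_v_eq_zero A φ hφ p h3 1
    have h4 : (f p).v ((1 : P ⧸ A), (1 : Q ⧸ B)) = 0 := by rw [hp]; rfl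
    rw [hfv] at h4
    have h5 : n • (a p).v 1 = 0 := congrArg Prod.fst h4
    exact (smul_eq_zero.mp h5).resolve_left hn0
  · rw [injective_iff_map_eq_one]
    intro q hq
    have h3 := hgB q (by rw [hq]; rfl)
    have h4 := hgv q (by rw [hq]; rfl)
    apply ind_v_eq_zero B ψ hψ q h3 ((c' g0⁻¹).s 1)
    have h5 : (g q).v ((1 : P ⧸ A), (1 : Q ⧸ B)) = 0 := by rw [hq]; rfl
    rw [h4, hg0] at h5
    have h6 : n • (c q).v ((c' g0⁻¹).s 1) = 0 := congrArg Prod.snd h5
    exact (smul_eq_zero.mp h6).resolve_left hn0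
  · intro p q hpq hs _
    have hs' : (g q).s = 1 := by rw [← hpq]; exact hs
    have h3 := hfA p hs
    have h4 := hgv q hs' ((1 : P ⧸ A), (1 : Q ⧸ B))
    rw [hg0, ← hpq] at h4
    have h5 : n • (a p).v 1 = n • (0 : K → ℤ) := congrArg Prod.fst h4
    rw [smul_zero] at h5
    have h8 : p = 1 :=
      ind_v_eq_zero A φ hφ p h3 1 ((smul_eq_zero.mp h5).resolve_left hn0)
    rw [h8, map_one]

end inf

end Pool.Agent.Q104.VA
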